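import Pool.Agent.helper90.DH.SpecI

/-!
# d2:iBTS: the batch `j + 2`
-/

set_option autoImplicit false

open Filter Topology MeasureTheory
open scoped commutatorElement

namespace Pool.Agent.helper90.DH

open Pool.Agent.helper64.D2

theorem BTS_nb {C C' w0 q s0 : ℕ} (h : C ≤ C') (hN : NB C' w0 q s0) : NB C w0 q s0 := by
  obtain ⟨h1, h2, h3, h4⟩ := hN
  refine ⟨h1, h.trans h2, le_trans ?_ h3, le_trans ?_ h4⟩
  · exact Nat.mul_le_mul_right _ (Nat.mul_le_mul_right _ h)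
  · omega

theorem BTS_sj (s0 j : ℕ) : sj s0 (j + 1) = sj s0 j + sj s0 j / 4 := rfl

theorem BTS_amp (w0 s0 t φ : ℕ) : amp w0 s0 (t + 1) φ = sj s0 (t + 1) + 3 * w0 * φ := by
  unfold amp
  rw [if_neg (Nat.succ_ne_zero t)]

theorem BTS_pw {m n : ℕ} (h : m ≤ n) : (1 : ℝ) / 2 ^ n ≤ 1 / 2 ^ m :=
  one_div_le_one_div_of_le (by positivity) (pow_le_pow_right₀ (by norm_num) h)

theorem BTS_drf (w0 s0 t T φ : ℕ) (h : t ≤ T) :
    drf w0 s0 t (T + 1) φ = drf w0 s0 t T φ + (7 / 2) / 2 ^ amp w0 s0 (T + 1) φ := by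
  unfold drf
  rw [← Finset.insert_Ioc_right_eq_Ioc_add_one (by omega), Finset.sum_insert (by simp)]
  ring

theorem BTS_drf0 (w0 s0 t φ : ℕ) : drf w0 s0 t t φ = 0 := by
  unfold drf
  simp

theorem BTS (hSJM : SJM_stmt) (hDRF : DRF_stmt) (hSPH : SPH_stmt) (hDGS : DGS_stmt) : BTS_stmt := by
  intro β hβ
  obtain ⟨C, hC⟩ := hDGS β hβ
  refine ⟨C, ?_⟩
  intro a ha hB j cs Y Q G R hQ hR hH hF hG hclose
  obtain ⟨-, -, hth, -, hδ, hB0, hA, hw0, -, hNB, hCδ⟩ := ha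
  have hNBC : NB C a.w0 (a.ρ ^ 4) (a.ρ ^ 2) := BTS_nb (by omega) hNB
  have hNB1 : NB 1 a.w0 (a.ρ ^ 4) (a.ρ ^ 2) := BTS_nb (by omega) hNB
  set s0 : ℕ := a.ρ ^ 2 with hs0
  have hs1 : 1000 ≤ s0 := by
    have := hNB1.2.2.2
    omega
  obtain ⟨j1, j2, j3, j4, j5, j6, j7⟩ := hSJM s0 hs1
  obtain ⟨d1, d2', d3, d4, d5⟩ := hDRF a.w0 s0 hNB1.2.2.2
  have hmod : ∀ i : ℕ, i % 2 ^ a.w0 < 2 ^ a.w0 := fun i => Nat.mod_lt _ (by positivity)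
  -- the closing error
  have he : ∀ i : ℕ, (1 : ℝ) / 2 ^ (sj s0 j + sj s0 j / 4 * 3) ≤ (1 / 4) / 2 ^ amp a.w0 s0 (j + 2) (i % 2 ^ a.w0) := by
    intro i
    have h1 := BTS_pw (d5 j (i % 2 ^ a.w0) (hmod i))
    refine h1.trans (le_of_eq ?_)
    rw [pow_add]
    field_simp
    norm_num
  have hcl : ∀ t ≤ j + 1, ∀ i < a.ρ ^ 4, ∀ x, |ev (Cm G Q R i) x - ev (cs t i) x| ≤
      (1 / 4) / 2 ^ amp a.w0 s0 (j + 2) (i % 2 ^ a.w0) + drf a.w0 s0 t (j + 1) (i % 2 ^ a.w0) := by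
    intro t ht i hi x
    have h1 := (hclose i hi x).trans (he i)
    have h2 := ((hH t ht).2 i hi).2.2 (j + 1) ht le_rfl x
    have h3 : |ev (Cm G Q R i) x - ev (cs t i) x| ≤ |ev (Cm G Q R i) x - ev (cs (j + 1) i) x| +
        |ev (cs (j + 1) i) x - ev (cs t i) x| := abs_sub_le _ _ _
    linarith
  have hcl4 : ∀ t ≤ j + 1, ∀ i < a.ρ ^ 4, ∀ x, |ev (Cm G Q R i) x - ev (cs t i) x| ≤ 4 / 2 ^ sj s0 (t + 1) := by
    intro t ht i hi x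
    have h1 := hcl t ht i hi x
    have h2 := d1 t (j + 1) (i % 2 ^ a.w0)
    obtain ⟨h3, h4⟩ := d4 t (j + 1) (i % 2 ^ a.w0) ht
    have h5 : (1 / 4 : ℝ) / 2 ^ amp a.w0 s0 (j + 2) (i % 2 ^ a.w0) ≤ (1 / 4) / 2 ^ amp a.w0 s0 (t + 1) (i % 2 ^ a.w0) :=
      div_le_div_of_nonneg_left (by norm_num) (by positivity) (pow_le_pow_right₀ (by norm_num) h4)
    have h6 : (4 : ℝ) / 2 ^ amp a.w0 s0 (t + 1) (i % 2 ^ a.w0) ≤ 4 / 2 ^ sj s0 (t + 1) :=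
      div_le_div_of_nonneg_left (by norm_num) (by positivity) (pow_le_pow_right₀ (by norm_num) h3)
    have h7 : (1 / 4 : ℝ) / 2 ^ amp a.w0 s0 (t + 1) (i % 2 ^ a.w0) + (15 / 4) / 2 ^ amp a.w0 s0 (t + 1) (i % 2 ^ a.w0) =
        4 / 2 ^ amp a.w0 s0 (t + 1) (i % 2 ^ a.w0) := by ring
    linarith
  have hspr := hSPH a.th a.w0 a.ρ (j + 1) cs (Cm G Q R) hNB1 hth.le
    (fun t ht => (hH t ht).1.2.1) hcl4
  -- numbers
  set x1 : ℕ := sj s0 (j + 1) with hx1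
  have hx1s : s0 ≤ x1 := j1 (j + 1)
  have hx2 : sj s0 (j + 2) = x1 + x1 / 4 := rfl
  have hx0 : x1 = sj s0 j + sj s0 j / 4 := rfl
  have hLL : (2 : ℝ) ^ (sj s0 j + sj s0 j / 6) ≤ 2 ^ (x1 + x1 / 8) := by
    refine pow_le_pow_right₀ (by norm_num) ?_
    omega
  have hL1 : (1 : ℝ) ≤ 2 ^ (x1 + x1 / 8) := one_le_pow₀ (by norm_num)
  have hLam1 : (1 : ℝ) ≤ 2 ^ (sj s0 j + sj s0 j / 6) := one_le_pow₀ (by norm_num)
  have hnum : ((2 : ℝ) ^ (sj s0 j + sj s0 j / 6) + 2 ^ (x1 + x1 / 8)) * 2 ^ (sj s0 (j + 2) / 16 + s0 / 100) ≤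
      2 ^ amp a.w0 s0 (j + 2) 0 := by
    have h1 : (2 : ℝ) ^ (sj s0 j + sj s0 j / 6) + 2 ^ (x1 + x1 / 8) ≤ 2 ^ (x1 + x1 / 8 + 1) := by
      rw [pow_succ]; linarith
    have h2 : amp a.w0 s0 (j + 2) 0 = x1 + x1 / 4 := by
      rw [BTS_amp]; rfl
    calc ((2 : ℝ) ^ (sj s0 j + sj s0 j / 6) + 2 ^ (x1 + x1 / 8)) * 2 ^ (sj s0 (j + 2) / 16 + s0 / 100)
        ≤ 2 ^ (x1 + x1 / 8 + 1) * 2 ^ (sj s0 (j + 2) / 16 + s0 / 100) :=
          mul_le_mul_of_nonneg_right h1 (by positivity)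
      _ = 2 ^ (x1 + x1 / 8 + 1 + (sj s0 (j + 2) / 16 + s0 / 100)) := by rw [← pow_add]
      _ ≤ 2 ^ amp a.w0 s0 (j + 2) 0 := by
          refine pow_le_pow_right₀ (by norm_num) ?_
          rw [h2, hx2]
          omega
  obtain ⟨c, G', R', hR', hc, hBPR, hrest⟩ := hC a.KB a.th a.δ a.m0 a.w0 a.ρ hB hNBC hδ (j + 2) Y G Q R
    (a.A * a.B0) (2 ^ (x1 + x1 / 8)) (gam s0 (j + 1)) (2 ^ (sj s0 j + sj s0 j / 6)) hQ hR hF
    (mul_nonneg hA.le (by linarith)) (d3 (j + 1)).1 hL1 hLam1 hCδ (d3 (j + 1)).2 hnum hG hspr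
  set cs' : ℕ → ℕ → DD := fun t => if t = j + 2 then c else cs t with hcs'
  have hcs1 : ∀ t ≤ j + 1, cs' t = cs t := by
    intro t ht
    simp only [hcs']
    rw [if_neg (by omega)]
  have hcs2 : cs' (j + 2) = c := by
    simp only [hcs', if_true]
  have hdist : ∀ t ≤ j + 1, ∀ i < a.ρ ^ 4, ∀ x, |ev (c i) x - ev (cs t i) x| ≤ drf a.w0 s0 t (j + 2) (i % 2 ^ a.w0) := by
    intro t ht i hi x
    have h1 := hcl t ht i hi x
    have h2 := (hrest i hi).2.2.2 x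
    have h3 : |ev (c i) x - ev (cs t i) x| ≤ |ev (c i) x - ev (Cm G Q R i) x| + |ev (Cm G Q R i) x - ev (cs t i) x| :=
      abs_sub_le _ _ _
    rw [BTS_drf a.w0 s0 t (j + 1) _ ht]
    have h4 : (13 / 4 : ℝ) / 2 ^ amp a.w0 s0 (j + 2) (i % 2 ^ a.w0) + (1 / 4) / 2 ^ amp a.w0 s0 (j + 2) (i % 2 ^ a.w0) =
        (7 / 2) / 2 ^ amp a.w0 s0 (j + 2) (i % 2 ^ a.w0) := by ring
    have h5 : (7 / 2 : ℝ) / 2 ^ amp a.w0 s0 (j + 1 + 1) (i % 2 ^ a.w0) = (7 / 2) / 2 ^ amp a.w0 s0 (j + 2) (i % 2 ^ a.w0) := rfl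
    rw [h5]
    linarith
  refine ⟨cs', G', R', hcs1, hQ, hR', ?_, ?_, hF, ?_⟩
  · intro i hi
    rw [hcs2]
    exact hc i hi
  · intro t ht
    rcases Nat.lt_or_ge t (j + 2) with ht' | ht'
    · have ht1 : t ≤ j + 1 := by omega
      obtain ⟨b1, b2⟩ := hH t ht1
      rw [hcs1 t ht1]
      refine ⟨b1, fun i hi => ?_⟩
      obtain ⟨e1, e2, e3⟩ := b2 i hi
      refine ⟨e1, e2, ?_⟩
      intro t' htt' ht'2 x
      rcases Nat.lt_or_ge t' (j + 2) with h' | h'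
      · rw [hcs1 t' (by omega)]
        exact e3 t' htt' (by omega) x
      · have : t' = j + 2 := by omega
        subst this
        rw [hcs2]
        exact hdist t ht1 i hi x
    · have : t = j + 2 := by omega
      subst this
      rw [hcs2]
      refine ⟨hBPR, fun i hi => ?_⟩
      obtain ⟨-, -, f3, -⟩ := hrest i hi
      refine ⟨f3, ?_, ?_⟩
      · intro x
        have h1 := hdist 0 (by omega) i hi x
        have h2 := ((hH 0 (by omega)).2 i hi).2.1 x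
        rw [BTS_drf0, add_zero] at h2
        have h3 : |ev (c i) x - x| ≤ |ev (c i) x - ev (cs 0 i) x| + |ev (cs 0 i) x - x| := abs_sub_le _ _ _
        linarith
      · intro t' h1 h2 x
        have : t' = j + 2 := by omega
        subst this
        rw [hcs2, BTS_drf0, sub_self, abs_zero]
  · intro i hi
    obtain ⟨f1, f2, -, -⟩ := hrest i hi
    refine ⟨?_, ?_⟩
    · have h1 : gam s0 (j + 2) = gam s0 (j + 1) + 1 / 2 ^ (sj s0 (j + 2) / 16) := by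
        unfold gam
        rw [Finset.sum_range_succ]
      rw [h1]
      exact f1
    · intro x y
      refine (f2 x y).trans (mul_le_mul_of_nonneg_right ?_ (abs_nonneg _))
      obtain ⟨n1, -, n3, -⟩ := hNBC
      have h1 : C * (a.ρ ^ 4) ^ 2 ≤ 2 ^ (s0 / 1000) := by
        refine le_trans ?_ n3
        have h2 : (a.ρ ^ 4) ^ 2 ≤ (a.ρ ^ 4) ^ 10 := Nat.pow_le_pow_right n1 (by norm_num)
        have h3 : 1 ≤ 2 ^ (10 * a.w0) := Nat.one_le_two_pow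
        calc C * (a.ρ ^ 4) ^ 2 ≤ C * (a.ρ ^ 4) ^ 10 := Nat.mul_le_mul_left _ h2
          _ = C * (a.ρ ^ 4) ^ 10 * 1 := by ring
          _ ≤ C * (a.ρ ^ 4) ^ 10 * 2 ^ (10 * a.w0) := Nat.mul_le_mul_left _ h3
      have h2 : (C : ℝ) * ((a.ρ : ℝ) ^ 4) ^ 2 ≤ 2 ^ (s0 / 1000) := by exact_mod_cast h1
      have h3 : (2 : ℝ) ^ (sj s0 j + sj s0 j / 6) + 2 ^ (x1 + x1 / 8) ≤ 2 ^ (x1 + x1 / 8 + 1) := by
        rw [pow_succ]; linarith
      calc (C : ℝ) * ((a.ρ : ℝ) ^ 4) ^ 2 * ((2 : ℝ) ^ (sj s0 j + sj s0 j / 6) + 2 ^ (x1 + x1 / 8))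
          ≤ 2 ^ (s0 / 1000) * 2 ^ (x1 + x1 / 8 + 1) := mul_le_mul h2 h3 (by positivity) (by positivity)
        _ = 2 ^ (s0 / 1000 + (x1 + x1 / 8 + 1)) := by rw [← pow_add]
        _ ≤ 2 ^ (x1 + x1 / 6) := by
            refine pow_le_pow_right₀ (by norm_num) ?_
            omega

end Pool.Agent.helper90.DH
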