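import Pool.Agent.helper90.DH.SpecI

/-!
# Project d2 (MP_5823cb_al), row iWDB: bounds of the shift (helper64)
-/

set_option autoImplicit false

open Filter Topology MeasureTheory
open scoped commutatorElement

namespace Pool.Agent.helper90.DH

open Pool.Agent.helper64.D2

/-- derivative of the shift. -/
theorem WDB_deriv (g : ℝ → ℝ) (hg : Differentiable ℝ g) (u N : ℕ) (τ : ℝ) (ω : ℕ → ℕ) :
    deriv (Wd g u N τ ω) = fun x => 2 ^ u * Wd (deriv g) u N τ ω x := by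
  funext x
  have h1 : HasDerivAt (Wd g u N τ ω) (τ * ∑ l ∈ Finset.Ico (2 ^ (u - 3) + 2) (7 * 2 ^ (u - 3) - 2),
      ((ω l : ℝ) / N) * (deriv g (2 ^ u * x - l) * 2 ^ u)) x := by
    have h2 : Wd g u N τ ω = fun y => τ * ∑ l ∈ Finset.Ico (2 ^ (u - 3) + 2) (7 * 2 ^ (u - 3) - 2),
        ((ω l : ℝ) / N) * g (2 ^ u * y - l) := by
      funext y
      rfl
    rw [h2]
    refine HasDerivAt.const_mul τ ?_
    refine HasDerivAt.fun_sum ?_
    intro l _
    refine HasDerivAt.const_mul _ ?_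
    have h3 : HasDerivAt (fun y : ℝ => (2 : ℝ) ^ u * y - (l : ℝ)) ((2 : ℝ) ^ u) x := by
      have h4 := ((hasDerivAt_id x).const_mul ((2 : ℝ) ^ u)).sub_const (l : ℝ)
      simpa using h4
    exact (hg (2 ^ u * x - l)).hasDerivAt.comp x h3
  rw [h1.deriv]
  rw [Wd, Finset.mul_sum, Finset.mul_sum, Finset.mul_sum]
  refine Finset.sum_congr rfl ?_
  intro l _
  ring

/-- bound of the shift. -/
theorem WDB_bound (g : ℝ → ℝ) (M : ℝ) (hM : 0 ≤ M) (hb : ∀ x, |g x| ≤ M) (h0 : ∀ x, x ∉ Set.Ioo (-1 : ℝ) 2 → g x = 0)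
    (u N : ℕ) (τ : ℝ) (ω : ℕ → ℕ) (hN : 1 ≤ N) (hτ : 0 ≤ τ) (hω : ∀ l, ω l < N) (x : ℝ) :
    |Wd g u N τ ω x| ≤ 3 * M * τ := by
  classical
  have hNr : (0 : ℝ) < N := by exact_mod_cast hN
  have hterm : ∀ l : ℕ, |((ω l : ℝ) / N) * g (2 ^ u * x - l)| ≤ if (2 ^ u * x - l) ∈ Set.Ioo (-1 : ℝ) 2 then M else 0 := by
    intro l
    have h1 : (0 : ℝ) ≤ (ω l : ℝ) / N := by positivity
    have h2 : (ω l : ℝ) / N ≤ 1 := by
      rw [div_le_one hNr]
      exact_mod_cast (hω l).le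
    by_cases hl : (2 ^ u * x - l) ∈ Set.Ioo (-1 : ℝ) 2
    · rw [if_pos hl, abs_mul, abs_of_nonneg h1]
      calc (ω l : ℝ) / N * |g (2 ^ u * x - l)| ≤ 1 * M :=
            mul_le_mul h2 (hb _) (abs_nonneg _) zero_le_one
        _ = M := one_mul M
    · rw [if_neg hl, h0 _ hl, mul_zero, abs_zero]
  have hcard : ((Finset.Ico (2 ^ (u - 3) + 2) (7 * 2 ^ (u - 3) - 2)).filter
      (fun l : ℕ => (2 ^ u * x - l) ∈ Set.Ioo (-1 : ℝ) 2)).card ≤ 3 := by
    have h1 : (Finset.Icc (⌊2 ^ u * x⌋ - 1) (⌊2 ^ u * x⌋ + 1)).card = 3 := by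
      rw [Int.card_Icc]
      have h2 : ⌊2 ^ u * x⌋ + 1 + 1 - (⌊2 ^ u * x⌋ - 1) = 3 := by ring
      rw [h2]
      rfl
    rw [← h1]
    refine Finset.card_le_card_of_injOn (fun l : ℕ => (l : ℤ)) ?_ ?_
    · intro l hl
      have hl' := (Finset.mem_filter.1 (Finset.mem_coe.1 hl)).2
      rw [Finset.mem_coe, Finset.mem_Icc]
      have h3 : (⌊2 ^ u * x⌋ : ℝ) ≤ 2 ^ u * x := Int.floor_le _
      have h4 : 2 ^ u * x < (⌊2 ^ u * x⌋ : ℝ) + 1 := Int.lt_floor_add_one _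
      have h5 := hl'.1
      have h6 := hl'.2
      constructor
      · have h7 : ((⌊2 ^ u * x⌋ - 2 : ℤ) : ℝ) < ((l : ℤ) : ℝ) := by
          push_cast
          linarith
        have h8 : (⌊2 ^ u * x⌋ - 2 : ℤ) < (l : ℤ) := by exact_mod_cast h7
        change ⌊2 ^ u * x⌋ - 1 ≤ (l : ℤ)
        omega
      · have h7 : ((l : ℤ) : ℝ) < ((⌊2 ^ u * x⌋ + 2 : ℤ) : ℝ) := by
          push_cast
          linarith
        have h8 : (l : ℤ) < (⌊2 ^ u * x⌋ + 2 : ℤ) := by exact_mod_cast h7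
        change (l : ℤ) ≤ ⌊2 ^ u * x⌋ + 1
        omega
    · intro a _ b _ hab
      have hab' : (a : ℤ) = (b : ℤ) := hab
      exact_mod_cast hab'
  have hsum : |∑ l ∈ Finset.Ico (2 ^ (u - 3) + 2) (7 * 2 ^ (u - 3) - 2), ((ω l : ℝ) / N) * g (2 ^ u * x - l)| ≤ 3 * M := by
    calc |∑ l ∈ Finset.Ico (2 ^ (u - 3) + 2) (7 * 2 ^ (u - 3) - 2), ((ω l : ℝ) / N) * g (2 ^ u * x - l)|
        ≤ ∑ l ∈ Finset.Ico (2 ^ (u - 3) + 2) (7 * 2 ^ (u - 3) - 2), |((ω l : ℝ) / N) * g (2 ^ u * x - l)| :=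
          Finset.abs_sum_le_sum_abs _ _
      _ ≤ ∑ l ∈ Finset.Ico (2 ^ (u - 3) + 2) (7 * 2 ^ (u - 3) - 2), (if (2 ^ u * x - (l : ℕ)) ∈ Set.Ioo (-1 : ℝ) 2 then M else 0) :=
          Finset.sum_le_sum (fun l _ => hterm l)
      _ = (((Finset.Ico (2 ^ (u - 3) + 2) (7 * 2 ^ (u - 3) - 2)).filter
            (fun l : ℕ => (2 ^ u * x - l) ∈ Set.Ioo (-1 : ℝ) 2)).card : ℝ) * M := by
          rw [← Finset.sum_filter, Finset.sum_const, nsmul_eq_mul]
      _ ≤ 3 * M := by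
          refine mul_le_mul_of_nonneg_right ?_ hM
          exact_mod_cast hcard
  rw [Wd, abs_mul, abs_of_nonneg hτ]
  calc τ * |∑ l ∈ Finset.Ico (2 ^ (u - 3) + 2) (7 * 2 ^ (u - 3) - 2), ((ω l : ℝ) / N) * g (2 ^ u * x - l)|
      ≤ τ * (3 * M) := mul_le_mul_of_nonneg_left hsum hτ
    _ = 3 * M * τ := by ring

/-- the derivative of a function which vanishes off `(-1,2)` vanishes off `(-1,2)`, if it is continuous. -/
theorem WDB_zero (g : ℝ → ℝ) (hc : Continuous (deriv g)) (h0 : ∀ x, x ∉ Set.Ioo (-1 : ℝ) 2 → g x = 0) :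
    ∀ x, x ∉ Set.Ioo (-1 : ℝ) 2 → deriv g x = 0 := by
  have hcl : IsClosed {x : ℝ | deriv g x = 0} := isClosed_eq hc continuous_const
  have h1 : Set.Iio (-1 : ℝ) ⊆ {x : ℝ | deriv g x = 0} := by
    intro x hx
    have h2 : g =ᶠ[𝓝 x] fun _ => (0 : ℝ) := by
      filter_upwards [isOpen_Iio.mem_nhds hx] with y hy
      refine h0 y ?_
      intro h3
      exact absurd h3.1 (not_lt.2 (le_of_lt hy))
    change deriv g x = 0
    rw [h2.deriv_eq]
    simp
  have h2 : Set.Ioi (2 : ℝ) ⊆ {x : ℝ | deriv g x = 0} := by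
    intro x hx
    have h2 : g =ᶠ[𝓝 x] fun _ => (0 : ℝ) := by
      filter_upwards [isOpen_Ioi.mem_nhds hx] with y hy
      refine h0 y ?_
      intro h3
      exact absurd h3.2 (not_lt.2 (le_of_lt hy))
    change deriv g x = 0
    rw [h2.deriv_eq]
    simp
  have h3 : Set.Iic (-1 : ℝ) ⊆ {x : ℝ | deriv g x = 0} := by
    rw [← closure_Iio]
    exact hcl.closure_subset_iff.2 h1
  have h4 : Set.Ici (2 : ℝ) ⊆ {x : ℝ | deriv g x = 0} := by
    rw [← closure_Ioi]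
    exact hcl.closure_subset_iff.2 h2
  intro x hx
  rcases le_or_gt x (-1) with h | h
  · exact h3 h
  · rcases lt_or_ge x 2 with h' | h'
    · exact absurd ⟨h, h'⟩ hx
    · exact h4 h'

/-- a continuous function which vanishes off `(-1,2)` is bounded. -/
theorem WDB_bdd (g : ℝ → ℝ) (hc : Continuous g) (h0 : ∀ x, x ∉ Set.Ioo (-1 : ℝ) 2 → g x = 0) :
    ∃ M : ℝ, 0 ≤ M ∧ ∀ x, |g x| ≤ M := by
  obtain ⟨C, hC⟩ := (isCompact_Icc (a := (-1 : ℝ)) (b := 2)).exists_bound_of_continuousOn hc.continuousOn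
  refine ⟨max C 0, le_max_right _ _, ?_⟩
  intro x
  by_cases hx : x ∈ Set.Ioo (-1 : ℝ) 2
  · exact ((hC x (Set.Ioo_subset_Icc_self hx))).trans (le_max_left _ _)
  · rw [h0 x hx, abs_zero]
    exact le_max_right _ _

theorem WDB : WDB_stmt := by
  intro β hβ
  obtain ⟨hC3, hβ01, -, hβ0⟩ := hβ
  have e3 : (3 : WithTop ℕ∞) = 2 + 1 := by norm_num
  have e2 : (2 : WithTop ℕ∞) = 1 + 1 := by norm_num
  have e1 : (1 : WithTop ℕ∞) = 0 + 1 := by norm_num
  have hd0 : Differentiable ℝ β := hC3.differentiable (by norm_num)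
  have hC2 : ContDiff ℝ 2 (deriv β) := by
    have h := hC3
    rw [e3, contDiff_succ_iff_deriv] at h
    exact h.2.2
  have hd1 : Differentiable ℝ (deriv β) := hC2.differentiable (by norm_num)
  have hC1 : ContDiff ℝ 1 (deriv (deriv β)) := by
    have h := hC2
    rw [e2, contDiff_succ_iff_deriv] at h
    exact h.2.2
  have hd2 : Differentiable ℝ (deriv (deriv β)) := hC1.differentiable (by norm_num)
  have hC0 : ContDiff ℝ 0 (deriv (deriv (deriv β))) := by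
    have h := hC1
    rw [e1, contDiff_succ_iff_deriv] at h
    exact h.2.2
  have z1 := WDB_zero β hC2.continuous hβ0
  have z2 := WDB_zero (deriv β) hC1.continuous z1
  have z3 := WDB_zero (deriv (deriv β)) hC0.continuous z2
  obtain ⟨M1, hM1, hb1⟩ := WDB_bdd _ hC2.continuous z1
  obtain ⟨M2, hM2, hb2⟩ := WDB_bdd _ hC1.continuous z2
  obtain ⟨M3, hM3, hb3⟩ := WDB_bdd _ hC0.continuous z3
  refine ⟨1 + 3 * M1 + 3 * M2 + 3 * M3, by linarith, ?_⟩
  intro u N τ ω hu hN hτ hω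
  have D1 : deriv (Wd β u N τ ω) = fun x => 2 ^ u * Wd (deriv β) u N τ ω x := WDB_deriv β hd0 u N τ ω
  have hdif : ∀ g : ℝ → ℝ, Differentiable ℝ g → Differentiable ℝ (Wd g u N τ ω) := by
    intro g hg
    have h2 : Wd g u N τ ω = fun y => τ * ∑ l ∈ Finset.Ico (2 ^ (u - 3) + 2) (7 * 2 ^ (u - 3) - 2),
        ((ω l : ℝ) / N) * g (2 ^ u * y - l) := by
      funext y
      rfl
    rw [h2]
    refine Differentiable.const_mul ?_ τ
    refine Differentiable.fun_sum ?_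
    intro l _
    refine Differentiable.const_mul ?_ _
    exact hg.comp ((differentiable_id.const_mul ((2 : ℝ) ^ u)).sub_const (l : ℝ))
  have D2 : d2 (Wd β u N τ ω) = fun x => 2 ^ u * (2 ^ u * Wd (deriv (deriv β)) u N τ ω x) := by
    funext x
    rw [d2, D1]
    have h1 : HasDerivAt (fun x => 2 ^ u * Wd (deriv β) u N τ ω x) (2 ^ u * deriv (Wd (deriv β) u N τ ω) x) x :=
      ((hdif (deriv β) hd1) x).hasDerivAt.const_mul _
    rw [h1.deriv, WDB_deriv (deriv β) hd1 u N τ ω]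
  have D3 : deriv (d2 (Wd β u N τ ω)) = fun x => 2 ^ u * (2 ^ u * (2 ^ u * Wd (deriv (deriv (deriv β))) u N τ ω x)) := by
    funext x
    rw [D2]
    have h1 : HasDerivAt (fun x => 2 ^ u * (2 ^ u * Wd (deriv (deriv β)) u N τ ω x))
        (2 ^ u * (2 ^ u * deriv (Wd (deriv (deriv β)) u N τ ω) x)) x :=
      (((hdif (deriv (deriv β)) hd2) x).hasDerivAt.const_mul _).const_mul _
    rw [h1.deriv, WDB_deriv (deriv (deriv β)) hd2 u N τ ω]
  have hp : (0 : ℝ) < 2 ^ u := by positivity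
  refine ⟨?_, ?_, ?_⟩
  · have h2 : Wd β u N τ ω = fun y => τ * ∑ l ∈ Finset.Ico (2 ^ (u - 3) + 2) (7 * 2 ^ (u - 3) - 2),
        ((ω l : ℝ) / N) * β (2 ^ u * y - l) := by
      funext y
      rfl
    rw [h2]
    refine contDiff_const.mul ?_
    refine ContDiff.sum ?_
    intro l _
    refine contDiff_const.mul ?_
    exact hC3.comp ((contDiff_const.mul contDiff_id).sub contDiff_const)
  · intro x hx
    rw [Wd]
    have h1 : ∑ l ∈ Finset.Ico (2 ^ (u - 3) + 2) (7 * 2 ^ (u - 3) - 2), ((ω l : ℝ) / N) * β (2 ^ u * x - l) = 0 := by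
      refine Finset.sum_eq_zero ?_
      intro l hl
      rw [Finset.mem_Ico] at hl
      have h2 : β (2 ^ u * x - l) = 0 := by
        refine hβ0 _ ?_
        intro h3
        apply hx
        obtain ⟨k, hk⟩ : ∃ k, u = k + 3 := ⟨u - 3, by omega⟩
        have hk3 : u - 3 = k := by omega
        rw [hk3] at hl
        have h5 : (2 : ℝ) ^ u = 8 * 2 ^ k := by
          rw [hk, pow_add]
          norm_num
          ring
        have h6 := h3.1
        have h7 := h3.2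
        rw [h5] at h6 h7
        have hkp : (0 : ℝ) < 2 ^ k := by positivity
        have h8 : ((2 ^ k + 2 : ℕ) : ℝ) ≤ (l : ℝ) := by exact_mod_cast hl.1
        have h9 : l + 3 ≤ 7 * 2 ^ k := by omega
        have h10 : ((l + 3 : ℕ) : ℝ) ≤ ((7 * 2 ^ k : ℕ) : ℝ) := by exact_mod_cast h9
        push_cast at h8 h10
        constructor
        · by_contra hcon
          rw [not_le] at hcon
          have : 2 ^ k * x < 2 ^ k * (1 / 8) := mul_lt_mul_of_pos_left hcon hkp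
          linarith
        · by_contra hcon
          rw [not_le] at hcon
          have : 2 ^ k * (7 / 8) < 2 ^ k * x := mul_lt_mul_of_pos_left hcon hkp
          linarith
      rw [h2, mul_zero]
    rw [h1, mul_zero]
  · intro x
    refine ⟨?_, ?_, ?_, ?_⟩
    · have h := WDB_bound β 1 zero_le_one (fun y => by rw [abs_of_nonneg (hβ01 y).1]; exact (hβ01 y).2) hβ0 u N τ ω hN hτ hω x
      linarith
    · rw [D1]
      have h := WDB_bound _ M1 hM1 hb1 z1 u N τ ω hN hτ hω x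
      change |2 ^ u * Wd (deriv β) u N τ ω x| ≤ _
      rw [abs_mul, abs_of_pos hp]
      calc 2 ^ u * |Wd (deriv β) u N τ ω x| ≤ 2 ^ u * (3 * M1 * τ) := mul_le_mul_of_nonneg_left h hp.le
        _ ≤ 2 ^ u * ((1 + 3 * M1 + 3 * M2 + 3 * M3) * τ) := by
            refine mul_le_mul_of_nonneg_left ?_ hp.le
            refine mul_le_mul_of_nonneg_right ?_ hτ
            linarith
        _ = (1 + 3 * M1 + 3 * M2 + 3 * M3) * τ * 2 ^ u := by ring
    · rw [D2]
      have h := WDB_bound _ M2 hM2 hb2 z2 u N τ ω hN hτ hω x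
      change |2 ^ u * (2 ^ u * Wd (deriv (deriv β)) u N τ ω x)| ≤ _
      rw [abs_mul, abs_mul, abs_of_pos hp]
      calc 2 ^ u * (2 ^ u * |Wd (deriv (deriv β)) u N τ ω x|) ≤ 2 ^ u * (2 ^ u * (3 * M2 * τ)) :=
            mul_le_mul_of_nonneg_left (mul_le_mul_of_nonneg_left h hp.le) hp.le
        _ ≤ 2 ^ u * (2 ^ u * ((1 + 3 * M1 + 3 * M2 + 3 * M3) * τ)) := by
            refine mul_le_mul_of_nonneg_left (mul_le_mul_of_nonneg_left ?_ hp.le) hp.le
            refine mul_le_mul_of_nonneg_right ?_ hτ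
            linarith
        _ = (1 + 3 * M1 + 3 * M2 + 3 * M3) * τ * 2 ^ (2 * u) := by ring
    · rw [D3]
      have h := WDB_bound _ M3 hM3 hb3 z3 u N τ ω hN hτ hω x
      change |2 ^ u * (2 ^ u * (2 ^ u * Wd (deriv (deriv (deriv β))) u N τ ω x))| ≤ _
      rw [abs_mul, abs_mul, abs_mul, abs_of_pos hp]
      calc 2 ^ u * (2 ^ u * (2 ^ u * |Wd (deriv (deriv (deriv β))) u N τ ω x|)) ≤ 2 ^ u * (2 ^ u * (2 ^ u * (3 * M3 * τ))) :=
            mul_le_mul_of_nonneg_left (mul_le_mul_of_nonneg_left (mul_le_mul_of_nonneg_left h hp.le) hp.le) hp.le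
        _ ≤ 2 ^ u * (2 ^ u * (2 ^ u * ((1 + 3 * M1 + 3 * M2 + 3 * M3) * τ))) := by
            refine mul_le_mul_of_nonneg_left (mul_le_mul_of_nonneg_left (mul_le_mul_of_nonneg_left ?_ hp.le) hp.le) hp.le
            refine mul_le_mul_of_nonneg_right ?_ hτ
            linarith
        _ = (1 + 3 * M1 + 3 * M2 + 3 * M3) * τ * 2 ^ (3 * u) := by ring

end Pool.Agent.helper90.DH
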